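import Pool.Agent.Q207.UL.Main

open Pool.Agent.W868 Pool.Agent.Q211.SY Pool.Agent.Q207.UL in
/-- There is a countable transitive model of ZF in which all successor cardinals are regular,
every `ℵ_n` carries a uniform ultrafilter, and the singular cardinal `ℵ_ω` does not. -/
theorem Pool.Agent.Results.MP_598ba0_lc.AlephOmega.result :
    ∃ M : Set ZFSet.{0}, M.Countable ∧ IsZF M ∧
      (∀ μ κ, IsInfCard M μ → IsNextCard M μ κ → IsReg M κ) ∧
      (∀ n : ℕ, ∃ κ, IsAleph M (nat n) κ ∧ Carries M κ) ∧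
      ∃ lam, IsAleph M ZFSet.omega lam ∧ ¬ IsReg M lam ∧ ¬ Carries M lam ∧
        ∀ μ ∈ lam, IsInfCard M μ → Carries M μ := by
  obtain ⟨π, h⟩ := exists_mod
  refine ⟨SS.Ms π, (π.cnt.mono fun _ hx => hx.1).image _, h.zf, fun μ κ => h.succ_reg,
    fun n => ⟨_, h.aleph_Kz n, h.carries_Kz n⟩, π.hat Lz, h.aleph_Lz, h.not_reg_Lz,
    not_carries h.cl h.lz h.xn, fun μ hμ hc => ?_⟩
  obtain ⟨n, rfl⟩ := h.eq_Kz hc hμ
  exact h.carries_Kz n
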